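import Pool.Agent.H52.DF.DigP

/-!
# MP_3e256f_co, Q1 for every direct factor with the property (T2) of Coven and Meyerowitz

Let `A` be a direct factor of `ℤ_ω` with `n` elements whose mask polynomial satisfies (T2), and let `P`
be at most every common prime factor of `n` and `ω / n`. If `A` shares more than `n / P` elements with a
complete set of residues modulo `n`, then `A` is a complete set of residues modulo `n`. For `P = 2` (which
is always allowed) this is Q1. Remark, not proved here: for `ω = n p` with a prime `p ∣ n` the direct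
factor `A = p ℤ_ω` meets exactly `n / p` classes, so the number `n / P` cannot be lowered.

Proof idea. By (T2) the factor `A` has a complement of digit form. The digit complement is moved by
multipliers (Tijdeman). Because `A` meets more than `n / P` of the classes modulo `n`, some difference of
two elements of `A` is `s y` modulo `n` with `0 < s < P`, for any given `y`, and this excludes any digit
which would bring together two elements of `A` in one class modulo `n`.
-/

set_option autoImplicit false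

namespace Pool.Agent.Results.MP_3e256f_co.TileConditionT2

open Finset Polynomial

/-- `A` is a direct factor of `ℤ_ω`: for some `C`, every `g` is `a + c` with `a ∈ A`, `c ∈ C` in
exactly one way. -/
def DirectFactor {ω : ℕ} (A : Finset (ZMod ω)) : Prop :=
  ∃ C : Finset (ZMod ω), ∀ g : ZMod ω, ∃! p : ZMod ω × ZMod ω, p.1 ∈ A ∧ p.2 ∈ C ∧ p.1 + p.2 = g

/-- `S` has `n` elements, and distinct elements of `S` have different remainders modulo `n`. -/
def CompleteResidues {ω : ℕ} (n : ℕ) (S : Finset (ZMod ω)) : Prop :=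
  S.card = n ∧ ∀ x ∈ S, ∀ y ∈ S, x.val % n = y.val % n → x = y

/-- The mask polynomial, the sum of `X ^ a` over the representatives `0 ≤ a < ω` of `A`. -/
noncomputable def mask {ω : ℕ} (A : Finset (ZMod ω)) : ℤ[X] := ∑ a ∈ A, X ^ a.val

/-- The property (T2): if `d ≠ 1` divides `ω` and the mask polynomial is divisible by the cyclotomic
polynomial of the exact `q`-part of `d` for every prime `q ∣ d`, then it is divisible by the
cyclotomic polynomial of `d`. -/
def T2 {ω : ℕ} (A : Finset (ZMod ω)) : Prop :=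
  ∀ d : ℕ, d ∣ ω → d ≠ 1 →
    (∀ q : ℕ, q.Prime → q ∣ d → cyclotomic (q ^ d.factorization q) ℤ ∣ mask A) →
    cyclotomic d ℤ ∣ mask A

open Pool.Agent.H52.DF in
/-- **Q1 for all direct factors with (T2), with fewer common elements.** -/
theorem result (ω n P : ℕ) (hω : 0 < ω) (A B : Finset (ZMod ω)) (hA : DirectFactor A) (hT2 : T2 A)
    (hn : A.card = n) (hB : CompleteResidues n B)
    (hP : ∀ q : ℕ, q.Prime → q ∣ n → q ∣ ω / n → P ≤ q) (hAB : n < P * (A ∩ B).card) :
    CompleteResidues n A := by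
  classical
  have hωz : NeZero ω := ⟨hω.ne'⟩
  obtain ⟨C, hC⟩ := hA
  have hT : Til ω (fun x : {x // x ∈ A} => ((x.1.val : ℕ) : ℤ)) (fun x : {x // x ∈ C} => ((x.1.val : ℕ) : ℤ)) := by
    rw [til_iff]
    constructor
    · rintro ⟨x, c⟩ ⟨y, d⟩ he
      have he : ((((x.1.val : ℕ) : ℤ) + ((c.1.val : ℕ) : ℤ) : ℤ) : ZMod ω) =
          ((((y.1.val : ℕ) : ℤ) + ((d.1.val : ℕ) : ℤ) : ℤ) : ZMod ω) := he
      push_cast at he
      rw [ZMod.natCast_zmod_val, ZMod.natCast_zmod_val, ZMod.natCast_zmod_val, ZMod.natCast_zmod_val] at he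
      obtain ⟨p, _, hu⟩ := hC (x.1 + c.1)
      have h1 := hu (x.1, c.1) ⟨x.2, c.2, rfl⟩
      have h2 := hu (y.1, d.1) ⟨y.2, d.2, he.symm⟩
      have h3 : (x.1, c.1) = (y.1, d.1) := h1.trans h2.symm
      have h4 := (Prod.mk.inj h3).1
      have h5 := (Prod.mk.inj h3).2
      exact Prod.ext (Subtype.ext h4) (Subtype.ext h5)
    · intro g
      obtain ⟨p, ⟨h1, h2, h3⟩, _⟩ := hC g
      refine ⟨(⟨p.1, h1⟩, ⟨p.2, h2⟩), ?_⟩
      show ((((p.1.val : ℕ) : ℤ) + ((p.2.val : ℕ) : ℤ) : ℤ) : ZMod ω) = g
      push_cast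
      rw [ZMod.natCast_zmod_val, ZMod.natCast_zmod_val, h3]
  have hcard := til_card hT
  rw [Fintype.card_coe, Fintype.card_coe, hn] at hcard
  have hn0 : n ≠ 0 := by
    intro h
    rw [h, zero_mul] at hcard
    omega
  have hndvd : n ∣ ω := ⟨_, hcard.symm⟩
  have hmask : msk (fun x : {x // x ∈ A} => x.1.val) = mask A := by
    unfold msk mask
    exact Finset.sum_coe_sort A (fun a => (X : ℤ[X]) ^ a.val)
  have hhalf : n < P * (univ.image (fun x : {x // x ∈ A} => ((((x.1.val : ℕ) : ℤ)) : ZMod n))).card := by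
    have h1 : (A ∩ B).card ≤ (univ.image (fun x : {x // x ∈ A} => ((((x.1.val : ℕ) : ℤ)) : ZMod n))).card := by
      refine Finset.card_le_card_of_injOn (fun x => ((((x.val : ℕ) : ℤ)) : ZMod n)) ?_ ?_
      · intro x hx
        have hx' := Finset.mem_inter.1 (Finset.mem_coe.1 hx)
        exact Finset.mem_coe.2 (Finset.mem_image.2 ⟨⟨x, hx'.1⟩, Finset.mem_univ _, rfl⟩)
      · intro x hx y hy hxy
        have hx' := Finset.mem_inter.1 (Finset.mem_coe.1 hx)
        have hy' := Finset.mem_inter.1 (Finset.mem_coe.1 hy)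
        have hxy : ((((x.val : ℕ) : ℤ)) : ZMod n) = ((((y.val : ℕ) : ℤ)) : ZMod n) := hxy
        rw [Int.cast_natCast, Int.cast_natCast, ZMod.natCast_eq_natCast_iff'] at hxy
        exact hB.2 x hx'.2 y hy'.2 hxy
    exact lt_of_lt_of_le hAB (Nat.mul_le_mul_left P h1)
  have hinj := t2_mainP (a := fun x : {x // x ∈ A} => x.1.val) (c := fun x : {x // x ∈ C} => x.1.val)
    hω.ne' hn0 (by rw [Fintype.card_coe, hn]) hT (by rw [hmask]; exact hT2) hP hhalf
  refine ⟨hn, ?_⟩
  intro x hx y hy hxy
  have h1 : ((((x.val : ℕ) : ℤ)) : ZMod n) = ((((y.val : ℕ) : ℤ)) : ZMod n) := by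
    rw [Int.cast_natCast, Int.cast_natCast, ZMod.natCast_eq_natCast_iff']
    exact hxy
  have h2 := hinj (a₁ := ⟨x, hx⟩) (a₂ := ⟨y, hy⟩) h1
  exact congrArg Subtype.val h2

end Pool.Agent.Results.MP_3e256f_co.TileConditionT2
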